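import Pool.Agent.N495.TS.StmE

/-! Simple zeros of two polynomials; growth of generalised polynomials (helper588). -/

set_option autoImplicit false

namespace Pool.Agent.N588.TS

open MvPolynomial Filter Pool.Agent.N495.TS

theorem ncard_ne_zero {p : ℕ} [Fact p.Prime] : {u : ZMod p | u ≠ 0}.ncard = p - 1 := by
  have h1 : {u : ZMod p | u ≠ 0} = ({0} : Set (ZMod p))ᶜ := rfl
  rw [h1, Set.ncard_compl, Nat.card_zmod, Set.ncard_singleton]

theorem le_of_map {p : ℕ} [Fact p.Prime] {S : Set (Fin 2 → ZMod p)} (f : ZMod p → Fin 2 → ZMod p)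
    (hS : ∀ u, u ≠ 0 → f u ∈ S) (hf : ∀ u, u ≠ 0 → ∀ v, v ≠ 0 → f u = f v → u = v) :
    p - 1 ≤ S.ncard := by
  have h1 : (f '' {u : ZMod p | u ≠ 0}).ncard = p - 1 := by
    have hinj : Set.InjOn f {u : ZMod p | u ≠ 0} := fun u hu v hv h => hf u hu v hv h
    rw [hinj.ncard_image, ncard_ne_zero]
  rw [← h1]
  refine Set.ncard_le_ncard ?_ (Set.toFinite S)
  rintro _ ⟨u, hu, rfl⟩
  exact hS u hu

theorem t_EXZ : S_EXZ := by
  intro p hp hp5
  have : Fact p.Prime := ⟨hp⟩
  have h2 : (2 : ZMod p) ≠ 0 := by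
    intro h
    have h1 : ((2 : ℕ) : ZMod p) = 0 := by exact_mod_cast h
    rw [ZMod.natCast_eq_zero_iff] at h1
    have := Nat.le_of_dvd (by norm_num) h1
    omega
  have h3 : (3 : ZMod p) ≠ 0 := by
    intro h
    have h1 : ((3 : ℕ) : ZMod p) = 0 := by exact_mod_cast h
    rw [ZMod.natCast_eq_zero_iff] at h1
    have := Nat.le_of_dvd (by norm_num) h1
    omega
  constructor
  · refine le_of_map (fun u => ![-3 * u ^ 2, 2 * u ^ 3]) ?_ ?_
    · intro u hu
      refine ⟨?_, ?_, 0, ?_⟩
      · simp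
        ring
      · have e : (aeval ![-3 * u ^ 2, 2 * u ^ 3]) (C 6912 * X 0 ^ 3 : MvPolynomial (Fin 2) ℤ) =
            -(2 ^ 8 * 3 ^ 6 * u ^ 6) := by
          simp
          ring
        rw [e, neg_ne_zero]
        exact mul_ne_zero (mul_ne_zero (pow_ne_zero _ h2) (pow_ne_zero _ h3)) (pow_ne_zero _ hu)
      · have e : (aeval ![-3 * u ^ 2, 2 * u ^ 3]) (pderiv 0
            (C 4 * X 0 ^ 3 + C 27 * X 1 ^ 2 : MvPolynomial (Fin 2) ℤ)) =
            2 ^ 2 * 3 ^ 3 * u ^ 4 := by
          rw [map_add, pderiv_C_mul, pderiv_C_mul, Derivation.leibniz_pow, Derivation.leibniz_pow,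
            pderiv_X_self, pderiv_X_of_ne (by decide)]
          simp
          ring
        rw [e]
        exact mul_ne_zero (mul_ne_zero (pow_ne_zero _ h2) (pow_ne_zero _ h3)) (pow_ne_zero _ hu)
    · intro u hu v hv h
      have e0 := congrFun h 0
      have e1 := congrFun h 1
      simp only [Matrix.cons_val_zero, Matrix.cons_val_one] at e0 e1
      have e2 : u ^ 2 = v ^ 2 := mul_left_cancel₀ (neg_ne_zero.2 h3) e0
      have e3 : u ^ 3 = v ^ 3 := mul_left_cancel₀ h2 e1
      have e4 : v ^ 2 * u = v ^ 2 * v := by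
        rw [← pow_succ, ← e2, ← pow_succ, e3]
      exact mul_left_cancel₀ (pow_ne_zero 2 hv) e4
  · refine le_of_map (fun u => ![u, 0]) ?_ ?_
    · intro u hu
      refine ⟨by simp, by simpa using hu, 1, ?_⟩
      simp
    · intro u hu v hv h
      have e0 := congrFun h 0
      simpa using e0

theorem t_GRO : S_GRO := by
  intro F a c hc hle hc0
  have h1 : Tendsto (fun n : ℕ => (n : ℝ) ^ c) atTop atTop :=
    (tendsto_rpow_atTop hc0).comp tendsto_natCast_atTop_atTop
  have hterm : ∀ t ∈ F, Tendsto (fun n : ℕ => a t * (n : ℝ) ^ t / (n : ℝ) ^ c) atTop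
      (nhds (if t = c then a c else 0)) := by
    intro t ht
    split_ifs with h
    · subst h
      refine tendsto_const_nhds.congr' ?_
      filter_upwards [eventually_gt_atTop 0] with n hn
      have : (0 : ℝ) < (n : ℝ) ^ t := Real.rpow_pos_of_pos (by exact_mod_cast hn) _
      rw [mul_div_assoc, div_self this.ne', mul_one]
    · have hlt : 0 < c - t := by
        rcases (hle t ht).lt_or_eq with h' | h'
        · linarith
        · exact absurd h' h
      have h2 : Tendsto (fun n : ℕ => a t * (n : ℝ) ^ (-(c - t))) atTop (nhds (a t * 0)) :=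
        ((tendsto_rpow_neg_atTop hlt).comp tendsto_natCast_atTop_atTop).const_mul _
      rw [mul_zero] at h2
      refine h2.congr' ?_
      filter_upwards [eventually_gt_atTop 0] with n hn
      have hn' : (0 : ℝ) < n := by exact_mod_cast hn
      rw [mul_div_assoc, ← Real.rpow_sub hn', neg_sub]
  have hsum : Tendsto (fun n : ℕ => (∑ t ∈ F, a t * (n : ℝ) ^ t) / (n : ℝ) ^ c) atTop
      (nhds (a c)) := by
    have h2 := tendsto_finsetSum F hterm
    rw [Finset.sum_ite_eq' F c, if_pos hc] at h2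
    refine h2.congr fun n => ?_
    rw [Finset.sum_div]
  have hinv : Tendsto (fun n : ℕ => ((n : ℝ) ^ c)⁻¹) atTop (nhds 0) :=
    tendsto_inv_atTop_zero.comp h1
  have hlow : Tendsto (fun n : ℕ => (∑ t ∈ F, a t * (n : ℝ) ^ t) / (n : ℝ) ^ c - ((n : ℝ) ^ c)⁻¹)
      atTop (nhds (a c)) := by
    have := hsum.sub hinv
    rwa [sub_zero] at this
  refine tendsto_of_tendsto_of_tendsto_of_le_of_le' hlow hsum ?_ ?_
  · filter_upwards [eventually_gt_atTop 0] with n hn
    have hn' : (0 : ℝ) < (n : ℝ) ^ c := Real.rpow_pos_of_pos (by exact_mod_cast hn) _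
    rw [← one_div, ← sub_div]
    exact div_le_div_of_nonneg_right (by linarith [Int.lt_floor_add_one (∑ t ∈ F, a t * (n : ℝ) ^ t)])
      hn'.le
  · filter_upwards [eventually_gt_atTop 0] with n hn
    have hn' : (0 : ℝ) < (n : ℝ) ^ c := Real.rpow_pos_of_pos (by exact_mod_cast hn) _
    exact div_le_div_of_nonneg_right (Int.floor_le _) hn'.le

end Pool.Agent.N588.TS
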